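import Pool.Agent.TH707.OB.Null
import Pool.Agent.TH707.DP.SCNC

/-!
# Polylogarithmic space is a space-bounded class
-/

set_option autoImplicit false

namespace Pool.Agent.TH707.OB

open Pool.Agent.NPC Pool.Agent.H620R2.Gauge Pool.Agent.TH707.DP Filter
open Pool.Agent.H620R2.Gauge.CC (act_length exists_enum poly_code reach_unique)
open Pool.Agent.H622R2 (poly_of_polyTime polyTime_of_poly_list poly_pairBits)

theorem countable_polyTime : {F : List Bool → List Bool | PolyTime F}.Countable := by
  obtain ⟨g, hg⟩ := exists_enum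
  refine (Set.countable_range fun i => (g i).1.act).mono ?_
  intro F hF
  obtain ⟨i, hi⟩ := hg (⟨F, hF, F, hF⟩, 0)
  refine ⟨i, ?_⟩
  show (g i).1.act = F
  rw [hi]

theorem polylog_of_one {A : Oracle} {L : Set (List Bool)} (h : OneQuestion A L) :
    PolylogSpace A L := by
  obtain ⟨e, q, hL⟩ := h
  have hact : Poly (fun y : List Bool => if (unpair y).2 = [] then
      false :: code (fun _ => q) e (unpair y).1 else true :: (unpair y).2) :=
    NPC.Poly.ite (NPC.Poly.decide_eq (NPC.Poly.snd poly_unpair) (NPC.Poly.const []))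
      (NPC.Poly.cons (NPC.Poly.const false)
        (NPC.Poly.comp (poly_code (fun _ => q) e) (NPC.Poly.fst poly_unpair)))
      (NPC.Poly.cons (NPC.Poly.const true) (NPC.Poly.snd poly_unpair))
  have hnext : Poly (fun y : List Bool => [(unpair y).2.getD 0 false]) :=
    NPC.Poly.cons (NPC.Poly.getD (NPC.Poly.snd poly_unpair) (NPC.Poly.const 0)
      (NPC.Poly.const false)) (NPC.Poly.const [])
  refine ⟨⟨_, polyTime_of_poly_list hact, _, polyTime_of_poly_list hnext⟩, 1, ?_⟩
  set M : SAlg := ⟨_, polyTime_of_poly_list hact, _, polyTime_of_poly_list hnext⟩ with hM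
  have h1 : ∀ x s, M.act (pairBits x s) =
      if s = [] then false :: code (fun _ => q) e x else true :: s := by
    intro x s
    show (if (unpair (pairBits x s)).2 = [] then _ else _) = _
    rw [unpair_pairBits]
  have h2 : ∀ x b s, M.next (pairBits x (b :: s)) = [b] := by
    intro x b s
    show [(unpair (pairBits x (b :: s))).2.getD 0 false] = _
    rw [unpair_pairBits]
    rfl
  have h3 : ∀ x s, M.Reach A x s → s = [] ∨ s = [A (code (fun _ => q) e x)] := by
    intro x s hs
    cases hs with
    | start => exact Or.inl rfl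
    | @step s y h4 h5 =>
      right
      rw [h1] at h5
      rw [h2]
      by_cases hs : s = []
      · rw [if_pos hs] at h5
        rw [List.tail_eq_of_cons_eq h5]
      · rw [if_neg hs] at h5
        simp at h5
  filter_upwards [eventually_ge_atTop 2] with n hn x hx
  have hlog : 1 ≤ Nat.log 2 n := Nat.le_log_of_pow_le (by norm_num) (by simpa using hn)
  refine ⟨fun s hs => ?_, [A (code (fun _ => q) e x)], [A (code (fun _ => q) e x)], ?_, ?_, ?_⟩
  · rw [pow_one]
    rcases h3 x s hs with rfl | rfl
    · exact Nat.zero_le _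
    · simpa using hlog
  · have h4 := SAlg.Reach.step (M := M) (A := A) (x := x) SAlg.Reach.start
      (by rw [h1, if_pos rfl])
    rwa [h2] at h4
  · rw [h1, if_neg (by simp)]
  · rw [hL x]
    simp [code]

theorem space_of_polylog {A : Oracle} {L : Set (List Bool)} (h : PolylogSpace A L) :
    InSpace {F | PolyTime F} (fun n => n ^ 1) (fun n => 2 ^ n / 8) A L := by
  obtain ⟨M, c, h⟩ := h
  have hx : Poly (fun y : List Bool => (unpair (unpair y).1).2) :=
    NPC.Poly.snd (NPC.Poly.comp poly_unpair (NPC.Poly.fst poly_unpair))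
  have hact : Poly (fun y : List Bool =>
      M.act (pairBits (unpair (unpair y).1).2 (unpair y).2)) :=
    NPC.Poly.comp (poly_of_polyTime M.act_poly)
      (poly_pairBits hx (NPC.Poly.snd poly_unpair))
  have hnext : Poly (fun y : List Bool =>
      M.next (pairBits (unpair (unpair y).1).2 (unpair y).2.tail)) :=
    NPC.Poly.comp (poly_of_polyTime M.next_poly)
      (poly_pairBits hx (NPC.Poly.tail (NPC.Poly.snd poly_unpair)))
  set M' : NAlg := ⟨fun y : List Bool => M.act (pairBits (unpair (unpair y).1).2 (unpair y).2),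
    fun y : List Bool => M.next (pairBits (unpair (unpair y).1).2 (unpair y).2.tail)⟩ with hM'
  have h1 : ∀ x s, M'.act (pairBits (pairBits [] x) s) = M.act (pairBits x s) := by
    intro x s
    show M.act (pairBits (unpair (unpair (pairBits (pairBits [] x) s)).1).2
      (unpair (pairBits (pairBits [] x) s)).2) = _
    rw [unpair_pairBits, unpair_pairBits]
  have h2 : ∀ x g b s, M'.next (pairBits (pairBits [] x) (g :: b :: s)) =
      M.next (pairBits x (b :: s)) := by
    intro x g b s
    show M.next (pairBits (unpair (unpair (pairBits (pairBits [] x) (g :: b :: s))).1).2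
      (unpair (pairBits (pairBits [] x) (g :: b :: s))).2.tail) = _
    rw [unpair_pairBits, unpair_pairBits]
    rfl
  have h3 : ∀ x s, M'.Reach A (pairBits [] x) s ↔ M.Reach A x s := by
    intro x s
    constructor
    · intro hs
      induction hs with
      | start => exact SAlg.Reach.start
      | step g _ h5 ih =>
        rw [h1] at h5
        rw [h2]
        exact SAlg.Reach.step ih h5
    · intro hs
      induction hs with
      | start => exact NAlg.Reach.start
      | @step s y _ h5 ih =>
        rw [← h1] at h5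
        have h6 := NAlg.Reach.step false ih h5
        rwa [h2] at h6
  obtain ⟨p, hp⟩ := act_length M Polynomial.X
  refine ⟨M', fun _ => [], p, polyTime_of_poly_list hact, polyTime_of_poly_list hnext, ?_⟩
  filter_upwards [h, log_pow_le c] with n h hlog
  refine ⟨Nat.zero_le _, fun x hxn => ?_⟩
  obtain ⟨h4, s, z, h5, h6, h7⟩ := h x hxn
  refine ⟨fun σ hσ => ?_, ?_⟩
  · rw [h3] at hσ
    have h8 := (h4 σ hσ).trans hlog
    refine ⟨by rwa [pow_one], fun q hq => ?_⟩
    rw [h1] at hq
    have h9 := hp x σ (by rw [Polynomial.eval_X, hxn]; exact h8)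
    rw [hq, List.length_cons, hxn] at h9
    omega
  · constructor
    · intro hxL
      refine ⟨s, (h3 x s).2 h5, ?_⟩
      rw [h1, h6, h7.1 hxL]
    · rintro ⟨t, h8, h9⟩
      rw [h3] at h8
      rw [h1] at h9
      have h10 := reach_unique h5 h8 ⟨z, h6⟩ ⟨_, h9⟩
      rw [← h10, h6] at h9
      exact h7.2 (List.tail_eq_of_cons_eq h9)

theorem spaceClass_polylog : SpaceClass PolylogSpace :=
  ⟨fun _ _ h => polylog_of_one h, _, 1, countable_polyTime, fun _ _ h => space_of_polylog h⟩

end Pool.Agent.TH707.OB
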