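import Mathlib

/-!
# Pointers against fixed sets of questions

For every input `u ∈ ι` there is a pointer of `l` bits, and there is a final bit for each value of
the pointer. An algorithm with a small fixed set `Q` of possible questions (the same for all inputs)
hardly ever computes the final bits at the pointers for all inputs.
-/

set_option autoImplicit false

namespace Pool.Agent.TH707.OB

open Finset

variable {I ι : Type} [Fintype I] [DecidableEq I] [Fintype ι] [DecidableEq ι]

/-- the bits at the places `pos` -/
def read {κ : Type} (pos : κ → I) (a : I → Bool) : κ → Bool := fun k => a (pos k)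

open Classical in
/-- new bits at the places `pos` -/
noncomputable def put {κ : Type} (pos : κ → I) (w : κ → Bool) (a : I → Bool) : I → Bool := fun i =>
  if h : ∃ k, pos k = i then w h.choose else a i

omit [Fintype I] [DecidableEq I] in
theorem put_pos {κ : Type} {pos : κ → I} (hpos : Function.Injective pos) (w : κ → Bool)
    (a : I → Bool) (k : κ) : put pos w a (pos k) = w k := by
  have h : ∃ k', pos k' = pos k := ⟨k, rfl⟩
  unfold put
  rw [dif_pos h, hpos h.choose_spec]

omit [Fintype I] [DecidableEq I] in
theorem put_off {κ : Type} {pos : κ → I} {w : κ → Bool} {a : I → Bool} {i : I}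
    (h : ∀ k, pos k ≠ i) : put pos w a i = a i := by
  unfold put
  rw [dif_neg]
  rintro ⟨k, hk⟩
  exact h k hk

open Classical in
/-- all contents of the places `pos` are equally frequent -/
theorem card_fiber {κ : Type} [Fintype κ] [DecidableEq κ] {pos : κ → I}
    (hpos : Function.Injective pos) (w : κ → Bool) :
    (univ.filter fun a : I → Bool => read pos a = w).card * 2 ^ Fintype.card κ =
      2 ^ Fintype.card I := by
  have hle : ∀ w w' : κ → Bool, (univ.filter fun a : I → Bool => read pos a = w).card ≤
      (univ.filter fun a : I → Bool => read pos a = w').card := by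
    intro w w'
    refine card_le_card_of_injOn (fun a => put pos w' a) ?_ ?_
    · intro a _
      rw [mem_coe, mem_filter]
      refine ⟨mem_univ _, ?_⟩
      funext k
      exact put_pos hpos w' a k
    · intro a ha a' ha' h
      rw [mem_coe, mem_filter] at ha ha'
      funext i
      by_cases hi : ∃ k, pos k = i
      · obtain ⟨k, rfl⟩ := hi
        have h1 := congrFun ha.2 k
        have h2 := congrFun ha'.2 k
        exact h1.trans h2.symm
      · push Not at hi
        have h1 := congrFun h i
        beta_reduce at h1
        rwa [put_off hi, put_off hi] at h1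
  have h1 : ∑ w' : κ → Bool, (univ.filter fun a : I → Bool => read pos a = w').card =
      2 ^ Fintype.card I := by
    rw [← card_eq_sum_card_fiberwise (s := (univ : Finset (I → Bool))) (t := univ)
      (f := read pos) fun a _ => mem_univ _]
    rw [card_univ, Fintype.card_fun, Fintype.card_bool]
  rw [← h1, sum_congr rfl fun w' _ => le_antisymm (hle w' w) (hle w w')]
  rw [sum_const, card_univ, Fintype.card_fun, Fintype.card_bool, smul_eq_mul, mul_comm]

/-- the pointers are independent -/
theorem sum_prod {l : ℕ} {pos : ι × Fin l → I} (hpos : Function.Injective pos)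
    (c : ι → (Fin l → Bool) → ℕ) :
    (∑ a : I → Bool, ∏ u, c u (fun i => a (pos (u, i)))) * 2 ^ (Fintype.card ι * l) =
      2 ^ Fintype.card I * ∏ u, ∑ v, c u v := by
  classical
  have h0 : Fintype.card (ι × Fin l) = Fintype.card ι * l := by
    rw [Fintype.card_prod, Fintype.card_fin]
  have h1 : ∀ a : I → Bool, ∏ u, c u (fun i => a (pos (u, i))) =
      ∑ w : ι × Fin l → Bool, if read pos a = w then ∏ u, c u (fun i => w (u, i)) else 0 := by
    intro a
    rw [sum_ite_eq]
    simp only [mem_univ, if_true]
    rfl
  rw [sum_congr rfl fun a _ => h1 a, sum_comm]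
  have h2 : ∀ w : ι × Fin l → Bool,
      (∑ a : I → Bool, if read pos a = w then ∏ u, c u (fun i => w (u, i)) else 0) =
      (univ.filter fun a : I → Bool => read pos a = w).card * ∏ u, c u (fun i => w (u, i)) := by
    intro w
    rw [← sum_filter, sum_const, smul_eq_mul]
  rw [sum_congr rfl fun w _ => h2 w, sum_mul]
  have h3 : ∀ w : ι × Fin l → Bool,
      ((univ.filter fun a : I → Bool => read pos a = w).card * ∏ u, c u (fun i => w (u, i))) *
        2 ^ (Fintype.card ι * l) = 2 ^ Fintype.card I * ∏ u, c u (fun i => w (u, i)) := by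
    intro w
    have h4 := card_fiber hpos w
    rw [h0] at h4
    rw [← h4]
    ring
  rw [sum_congr rfl fun w _ => h3 w, ← mul_sum]
  congr 1
  rw [prod_univ_sum]
  rw [Fintype.piFinset_univ]
  refine (Fintype.sum_equiv (Equiv.curry ι (Fin l) Bool) _ _ fun w => ?_)
  rfl

variable {l : ℕ} (pos : ι × Fin l → I) (last : ι × (Fin l → Bool) → I)

/-- the pointer of the input -/
def ptrV (a : I → Bool) (u : ι) : Fin l → Bool := fun i => a (pos (u, i))

open Classical in
/-- the inputs whose final bits are in the set `Q` -/
noncomputable def touched (Q : Finset I) (a : I → Bool) : Finset ι :=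
  univ.filter fun u => last (u, ptrV pos a u) ∈ Q

open Classical in
/-- flip the final bits of the inputs in `Y` -/
noncomputable def flip (Y : Finset ι) (a : I → Bool) : I → Bool := fun i =>
  if ∃ u ∈ Y, last (u, ptrV pos a u) = i then !(a i) else a i

open Classical in
/-- **An algorithm with a small fixed set of possible questions fails.** -/
theorem oblivious_bound (hpos : Function.Injective pos) (hlast : Function.Injective last)
    (hne : ∀ p q, pos p ≠ last q) (Q : Finset I) (hQ : 2 * Q.card ≤ 2 ^ l)
    (D : ι → (I → Bool) → Bool)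
    (hD : ∀ u a a', (∀ p ∈ Q, a' p = a p) → D u a' = D u a) :
    (univ.filter fun a : I → Bool => ∀ u, D u a = a (last (u, ptrV pos a u))).card *
      4 ^ Fintype.card ι ≤ 3 ^ Fintype.card ι * 2 ^ Fintype.card I := by
  set E := univ.filter fun a : I → Bool => ∀ u, D u a = a (last (u, ptrV pos a u)) with hE
  -- flips do not change the pointers
  have hptr : ∀ (Y : Finset ι) (a : I → Bool) (u : ι), ptrV pos (flip pos last Y a) u =
      ptrV pos a u := by
    intro Y a u
    funext i
    unfold ptrV flip
    rw [if_neg]
    rintro ⟨u', -, h⟩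
    exact hne _ _ h.symm
  have htou : ∀ (Y : Finset ι) (a : I → Bool), touched pos last Q (flip pos last Y a) =
      touched pos last Q a := by
    intro Y a
    unfold touched
    simp only [hptr]
  have hval : ∀ (Y : Finset ι) (a : I → Bool) (u : ι),
      flip pos last Y a (last (u, ptrV pos a u)) =
      if u ∈ Y then !(a (last (u, ptrV pos a u))) else a (last (u, ptrV pos a u)) := by
    intro Y a u
    unfold flip
    by_cases hu : u ∈ Y
    · rw [if_pos hu, if_pos ⟨u, hu, rfl⟩]
    · rw [if_neg hu, if_neg]
      rintro ⟨u', hu', h⟩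
      have h1 : u' = u := congrArg Prod.fst (hlast h)
      exact hu (h1 ▸ hu')
  have hoffQ : ∀ (Y : Finset ι) (a : I → Bool), (∀ u ∈ Y, u ∉ touched pos last Q a) →
      ∀ p ∈ Q, flip pos last Y a p = a p := by
    intro Y a hY p hp
    unfold flip
    rw [if_neg]
    rintro ⟨u, hu, h⟩
    refine hY u hu ?_
    unfold touched
    rw [mem_filter]
    exact ⟨mem_univ _, h ▸ hp⟩
  -- the injection
  have hstep : E.card * 2 ^ Fintype.card ι ≤
      ∑ a : I → Bool, 2 ^ (touched pos last Q a).card := by
    have h1 : E.card * 2 ^ Fintype.card ι = (E ×ˢ (univ : Finset (Finset ι))).card := by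
      rw [card_product, card_univ, Fintype.card_finset]
    have h2 : ∑ a : I → Bool, 2 ^ (touched pos last Q a).card =
        ((univ : Finset (I → Bool)).sigma fun a => (touched pos last Q a).powerset).card := by
      rw [card_sigma]
      exact sum_congr rfl fun a _ => (card_powerset _).symm
    rw [h1, h2]
    refine card_le_card_of_injOn
      (fun q => ⟨flip pos last (q.2 \ touched pos last Q q.1) q.1, q.2 ∩ touched pos last Q q.1⟩)
      ?_ ?_
    · rintro ⟨a, Y⟩ -
      rw [mem_coe, mem_sigma]
      refine ⟨mem_univ _, ?_⟩
      rw [mem_powerset]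
      simp only [htou]
      exact inter_subset_right
    · rintro ⟨a, Y⟩ hq ⟨a', Y'⟩ hq' h
      rw [mem_coe, mem_product] at hq hq'
      have ha := (mem_filter.1 hq.1).2
      have ha' := (mem_filter.1 hq'.1).2
      beta_reduce at h
      rw [Sigma.mk.injEq, heq_eq_eq] at h
      obtain ⟨h3, h4⟩ := h
      dsimp only at h3 h4 ha ha'
      have hT : touched pos last Q a = touched pos last Q a' := by
        rw [← htou (Y \ touched pos last Q a) a, h3, htou]
      have hV : ∀ u, ptrV pos a u = ptrV pos a' u := fun u => by
        rw [← hptr (Y \ touched pos last Q a) a u, h3, hptr]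
      -- who was flipped
      have hwho : ∀ (a : I → Bool) (Y : Finset ι),
          (∀ u, D u a = a (last (u, ptrV pos a u))) → ∀ u,
          (u ∈ Y \ touched pos last Q a ↔
            D u (flip pos last (Y \ touched pos last Q a) a) ≠
            flip pos last (Y \ touched pos last Q a) a (last (u, ptrV pos a u))) := by
        intro a Y ha u
        rw [hD u a _ (hoffQ _ a fun u hu => (mem_sdiff.1 hu).2), hval, ha u]
        by_cases hu : u ∈ Y \ touched pos last Q a
        · rw [if_pos hu]
          simp [hu]
        · rw [if_neg hu]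
          simp [hu]
      have hflip : Y \ touched pos last Q a = Y' \ touched pos last Q a' := by
        ext u
        rw [hwho a Y ha u, hwho a' Y' ha' u, h3, hV u]
      have hY : Y = Y' := by
        rw [← sdiff_union_inter Y (touched pos last Q a),
          ← sdiff_union_inter Y' (touched pos last Q a'), hflip, h4]
      have haa : a = a' := by
        funext i
        have h5 := congrFun h3 i
        unfold flip at h5
        have h6 : (∃ u ∈ Y \ touched pos last Q a, last (u, ptrV pos a u) = i) ↔
            ∃ u ∈ Y' \ touched pos last Q a', last (u, ptrV pos a' u) = i := by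
          rw [hflip]
          simp only [hV]
        by_cases h7 : ∃ u ∈ Y \ touched pos last Q a, last (u, ptrV pos a u) = i
        · rw [if_pos h7, if_pos (h6.1 h7)] at h5
          exact Bool.not_inj h5
        · rw [if_neg h7, if_neg fun h => h7 (h6.2 h)] at h5
          exact h5
      rw [hY, haa]
  -- the expectation
  set c : ι → (Fin l → Bool) → ℕ := fun u v => if last (u, v) ∈ Q then 2 else 1 with hc
  have hprod : ∀ a : I → Bool, 2 ^ (touched pos last Q a).card =
      ∏ u, c u (fun i => a (pos (u, i))) := by
    intro a
    rw [hc]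
    beta_reduce
    rw [prod_ite, prod_const, prod_const_one, mul_one]
    rfl
  have hsum : ∀ u, 2 * ∑ v, c u v ≤ 3 * 2 ^ l := by
    intro u
    have h1 : ∑ v, c u v = 2 ^ l + (univ.filter fun v => last (u, v) ∈ Q).card := by
      have h2 : ∀ v, c u v = 1 + if last (u, v) ∈ Q then 1 else 0 := by
        intro v
        rw [hc]
        beta_reduce
        split_ifs <;> rfl
      rw [sum_congr rfl fun v _ => h2 v, sum_add_distrib, sum_boole, sum_const, card_univ,
        Fintype.card_fun, Fintype.card_bool, Fintype.card_fin]
      simp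
    have h3 : (univ.filter fun v => last (u, v) ∈ Q).card ≤ Q.card := by
      refine card_le_card_of_injOn (fun v => last (u, v)) ?_ ?_
      · intro v hv
        rw [mem_coe, mem_filter] at hv
        exact hv.2
      · intro v _ v' _ h
        exact congrArg Prod.snd (hlast h)
    omega
  have hS := sum_prod hpos c
  rw [← sum_congr rfl fun a _ => hprod a] at hS
  set S := ∑ a : I → Bool, 2 ^ (touched pos last Q a).card with hSdef
  have h5 : 2 ^ Fintype.card ι * ∏ u, ∑ v, c u v ≤ 3 ^ Fintype.card ι * 2 ^ (Fintype.card ι * l) := by
    calc 2 ^ Fintype.card ι * ∏ u, ∑ v, c u v = ∏ u, (2 * ∑ v, c u v) := by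
          rw [prod_mul_distrib, prod_const, card_univ]
      _ ≤ ∏ _u : ι, (3 * 2 ^ l) := prod_le_prod' fun u _ => hsum u
      _ = 3 ^ Fintype.card ι * 2 ^ (Fintype.card ι * l) := by
          rw [prod_const, card_univ, mul_pow, ← pow_mul, mul_comm l]
  have h6 : S * 2 ^ Fintype.card ι ≤ 3 ^ Fintype.card ι * 2 ^ Fintype.card I := by
    have h7 : S * 2 ^ Fintype.card ι * 2 ^ (Fintype.card ι * l) ≤
        3 ^ Fintype.card ι * 2 ^ Fintype.card I * 2 ^ (Fintype.card ι * l) := by
      calc S * 2 ^ Fintype.card ι * 2 ^ (Fintype.card ι * l)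
          = 2 ^ Fintype.card ι * (S * 2 ^ (Fintype.card ι * l)) := by ring
        _ = 2 ^ Fintype.card I * (2 ^ Fintype.card ι * ∏ u, ∑ v, c u v) := by rw [hS]; ring
        _ ≤ 2 ^ Fintype.card I * (3 ^ Fintype.card ι * 2 ^ (Fintype.card ι * l)) :=
            Nat.mul_le_mul_left _ h5
        _ = _ := by ring
    exact Nat.le_of_mul_le_mul_right h7 (by positivity)
  calc E.card * 4 ^ Fintype.card ι = E.card * 2 ^ Fintype.card ι * 2 ^ Fintype.card ι := by
        rw [show (4 : ℕ) = 2 * 2 by norm_num, mul_pow, mul_assoc]
    _ ≤ S * 2 ^ Fintype.card ι := Nat.mul_le_mul_right _ hstep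
    _ ≤ _ := h6

end Pool.Agent.TH707.OB
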