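import Pool.Agent.TH707.DP.Adapt
import Pool.Agent.TH707.DP.Hard2

/-!
# A language in `P`: one pointer of `n ^ e` bits
-/

set_option autoImplicit false

namespace Pool.Agent.TH707.OB

open Pool.Agent.NPC Pool.Agent.H620R2.Gauge Pool.Agent.TH707.DP

/-- the next question -/
def wqE (e : ℕ) (p : List Bool × List Bool) : List Bool :=
  p.1 ++ (List.range (p.1.length ^ e)).map (fun i => if p.2.length < p.1.length ^ e then false else
    p.2.getD i false) ++ bitsL p.1.length p.2.length

theorem wqE_eq (e : ℕ) (u a : List Bool) : wqE e (u, a) =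
    u ++ (List.range (u.length ^ e)).map (fun i => if a.length < u.length ^ e then false else
      a.getD i false) ++ bitsL u.length a.length := rfl

theorem poly_wqE (e : ℕ) : Poly (wqE e) := by
  have hl : UPoly (fun p : List Bool × List Bool => p.1.length ^ e) :=
    ((UPoly.length (NPC.Poly.fst NPC.Poly.id)).eval (Polynomial.X ^ e)).congr fun p => by simp
  have hn : UPoly (fun p : List Bool × List Bool => p.1.length) :=
    UPoly.length (NPC.Poly.fst NPC.Poly.id)
  have hl'' : UPoly (fun p : (List Bool × List Bool) × ℕ => p.1.1.length ^ e) :=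
    ((UPoly.length (NPC.Poly.fst (NPC.Poly.fst NPC.Poly.id))).eval
      (Polynomial.X ^ e)).congr fun p => by simp
  have hl' : Poly (fun p : (List Bool × List Bool) × ℕ => p.1.1.length ^ e) := hl''.toPoly
  have hr' : Poly (fun p : (List Bool × List Bool) × ℕ => p.1.2.length) :=
    (UPoly.length (NPC.Poly.snd (NPC.Poly.fst NPC.Poly.id))).toPoly
  have h1 : Poly (fun p : (List Bool × List Bool) × ℕ =>
      if p.1.2.length < p.1.1.length ^ e then false else p.1.2.getD p.2 false) :=
    NPC.Poly.ite (NPC.Poly.decide_lt hr' hl') (NPC.Poly.const false)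
      (NPC.Poly.getD (NPC.Poly.snd (NPC.Poly.fst NPC.Poly.id)) (NPC.Poly.snd NPC.Poly.id)
        (NPC.Poly.const false))
  have h2 : Poly (fun p : (List Bool × List Bool) × ℕ => p.1.2.length.testBit p.2) := by
    refine NPC.Poly.congr (f := fun p : (List Bool × List Bool) × ℕ =>
      (p.1.2.length.bits).getD p.2 false) ?_ fun p => (testBit_bits _ _).symm
    exact NPC.Poly.getD (NPC.Poly.natBits hr') (NPC.Poly.snd NPC.Poly.id) (NPC.Poly.const false)
  unfold wqE bitsL
  exact NPC.Poly.append (NPC.Poly.append (NPC.Poly.fst NPC.Poly.id)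
    (NPC.Poly.map hl.range h1)) (NPC.Poly.map hn.range h2)

/-- the pointer -/
def ptrL (A : Oracle) (u : List Bool) (l : ℕ) : List Bool :=
  (List.range l).map fun i => A (u ++ List.replicate l false ++ bitsL u.length i)

theorem length_ptrL (A : Oracle) (u : List Bool) (l : ℕ) : (ptrL A u l).length = l := by
  simp [ptrL]

theorem ans_first (A : Oracle) (u : List Bool) (e : ℕ) (R : ℕ) (hR : R ≤ u.length ^ e) :
    ans A (wqE e) u R = (List.range R).map fun i =>
      A (u ++ List.replicate (u.length ^ e) false ++ bitsL u.length i) := by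
  induction R with
  | zero => rfl
  | succ R ih =>
    rw [List.range_succ, List.map_append, List.map_cons, List.map_nil]
    simp only [ans]
    rw [ih (by omega)]
    congr 3
    rw [wqE_eq]
    simp only [List.length_map, List.length_range]
    congr 2
    have h : R < u.length ^ e := by omega
    simp only [if_pos h, List.map_const', List.length_range]

/-- the language -/
def LQ (e : ℕ) (A : Oracle) : Set (List Bool) :=
  {u | A (u ++ ptrL A u (u.length ^ e) ++ bitsL u.length (u.length ^ e)) = true}

theorem ans_last (A : Oracle) (u : List Bool) (e : ℕ) :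
    (ans A (wqE e) u (u.length ^ e + 1)).getD (u.length ^ e) false =
      A (u ++ ptrL A u (u.length ^ e) ++ bitsL u.length (u.length ^ e)) := by
  have h1 := length_ans A (wqE e) u (u.length ^ e)
  simp only [ans]
  rw [List.getD_append_right _ _ _ _ (by omega), h1, Nat.sub_self, List.getD_cons_zero]
  congr 1
  rw [wqE_eq, h1]
  simp only [lt_irrefl, if_false]
  congr 2
  rw [ans_first A u e _ le_rfl]
  refine List.ext_getElem (by simp [ptrL]) fun i h2 h3 => ?_
  simp only [ptrL, List.getElem_map, List.getElem_range]
  simp only [List.length_map, List.length_range] at h2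
  rw [List.getD_eq_getElem _ _ (by simpa using h2)]
  simp

theorem LQ_isP (e : ℕ) (A : Oracle) : IsP A (LQ e A) := by
  have hout : Poly (fun p : List Bool × List Bool => [p.2.getD (p.1.length ^ e) false]) := by
    have hn : UPoly (fun p : List Bool × List Bool => p.1.length ^ e) :=
      ((UPoly.length (NPC.Poly.fst NPC.Poly.id)).eval (Polynomial.X ^ e)).congr fun p => by simp
    exact NPC.Poly.cons (NPC.Poly.getD (NPC.Poly.snd NPC.Poly.id) hn.toPoly
      (NPC.Poly.const false)) (NPC.Poly.const [])
  have h := isFP_adapt A (poly_wqE e) hout (Polynomial.X ^ e + 1)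
  refine ⟨_, h, fun x => ?_⟩
  simp only [Polynomial.eval_add, Polynomial.eval_pow, Polynomial.eval_X, Polynomial.eval_one]
  rw [ans_last]
  unfold LQ
  simp

end Pool.Agent.TH707.OB
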