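import Pool.Agent.TH707.OB.Defs
import Pool.Agent.TH707.OB.Lang
import Pool.Agent.TH707.OB.Engine
import Pool.Agent.TH707.DP.NullGen

/-!
# The pointers against space-bounded algorithms
-/

set_option autoImplicit false

namespace Pool.Agent.TH707.OB

open Pool.Agent.NPC Pool.Agent.H620R2.Gauge Pool.Agent.TH707.DP Finset
open Pool.Agent.TH707.EC
open H568R2

/-! ### truncated runs -/

/-- the contents of the memory of length at most `s`, with questions of length at most `q` -/
inductive ReachT (M : NAlg) (s q : ℕ) (B : Oracle) (x : List Bool) : List Bool → Prop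
  | start : ReachT M s q B x []
  | step {σ y : List Bool} (g : Bool) : ReachT M s q B x σ → M.act (pairBits x σ) = false :: y →
      y.length ≤ q → (M.next (pairBits x (g :: B y :: σ))).length ≤ s →
      ReachT M s q B x (M.next (pairBits x (g :: B y :: σ)))

/-- acceptance -/
def AccT (M : NAlg) (s q : ℕ) (B : Oracle) (x : List Bool) : Prop :=
  ∃ σ, ReachT M s q B x σ ∧ M.act (pairBits x σ) = [true, true]

theorem ReachT.length_le {M : NAlg} {s q : ℕ} {B : Oracle} {x σ : List Bool}
    (h : ReachT M s q B x σ) : σ.length ≤ s := by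
  cases h with
  | start => exact Nat.zero_le _
  | step g _ _ _ h => exact h

theorem ReachT.congr {M : NAlg} {s q : ℕ} {B B' : Oracle} {x σ : List Bool}
    (hB : ∀ σ y, σ.length ≤ s → M.act (pairBits x σ) = false :: y → B' y = B y)
    (h : ReachT M s q B x σ) : ReachT M s q B' x σ := by
  induction h with
  | start => exact ReachT.start
  | step g h1 h2 h3 h4 ih =>
    have h5 := hB _ _ h1.length_le h2
    rw [← h5] at h4 ⊢
    exact ReachT.step g ih h2 h3 h4

theorem accT_congr {M : NAlg} {s q : ℕ} {B B' : Oracle} {x : List Bool}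
    (hB : ∀ σ y, σ.length ≤ s → M.act (pairBits x σ) = false :: y → B' y = B y) :
    AccT M s q B' x ↔ AccT M s q B x := by
  constructor
  · rintro ⟨σ, h1, h2⟩
    exact ⟨σ, h1.congr fun σ y h3 h4 => (hB σ y h3 h4).symm, h2⟩
  · rintro ⟨σ, h1, h2⟩
    exact ⟨σ, h1.congr hB, h2⟩

theorem accT_iff {M : NAlg} {s q : ℕ} {A B : Oracle} {x : List Bool}
    (hA : ∀ σ, M.Reach A x σ → σ.length ≤ s ∧
      ∀ y, M.act (pairBits x σ) = false :: y → y.length ≤ q)
    (hB : ∀ y : List Bool, y.length ≤ q → B y = A y) : AccT M s q B x ↔ M.Accepts A x := by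
  constructor
  · rintro ⟨σ, h1, h2⟩
    refine ⟨σ, ?_, h2⟩
    clear h2
    induction h1 with
    | start => exact NAlg.Reach.start
    | step g _ h3 h4 _ ih =>
      rw [hB _ h4]
      exact NAlg.Reach.step g ih h3
  · rintro ⟨σ, h1, h2⟩
    refine ⟨σ, ?_, h2⟩
    clear h2
    induction h1 with
    | start => exact ReachT.start
    | @step τ y g h3 h4 ih =>
      have h5 := (hA _ h3).2 _ h4
      have h6 := (hA _ (NAlg.Reach.step g h3 h4)).1
      rw [← hB _ h5] at h6 ⊢
      exact ReachT.step g ih h4 h5 h6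

/-! ### the event -/

section

variable {n l N : ℕ}

/-- the places of the bits of the pointer -/
def posP (hN : 2 ^ (n + l + n + 1) ≤ N) (p : (Fin n → Bool) × Fin l) : Fin N :=
  ⟨idx (List.ofFn p.1 ++ List.replicate l false ++ bitsL n p.2), by
    have h := idx_lt (List.ofFn p.1 ++ List.replicate l false ++ bitsL n p.2)
    rw [List.length_append, List.length_append, List.length_ofFn, List.length_replicate,
      length_bitsL] at h
    omega⟩

/-- the places of the final bits -/
def lastP (hN : 2 ^ (n + l + n + 1) ≤ N) (p : (Fin n → Bool) × (Fin l → Bool)) : Fin N :=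
  ⟨idx (List.ofFn p.1 ++ List.ofFn p.2 ++ bitsL n l), by
    have h := idx_lt (List.ofFn p.1 ++ List.ofFn p.2 ++ bitsL n l)
    rw [List.length_append, List.length_append, List.length_ofFn, List.length_ofFn,
      length_bitsL] at h
    omega⟩

variable (hN : 2 ^ (n + l + n + 1) ≤ N)

theorem idx_inj' {y z : List Bool} (h : idx y = idx z) : y = z := by
  rw [← str_idx y, h, str_idx]

theorem posP_inj (hl : l < 2 ^ n) : Function.Injective (posP (l := l) hN) := by
  rintro ⟨u, i⟩ ⟨u', i'⟩ h
  have h1 := idx_inj' (Fin.mk.inj h)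
  dsimp only at h1
  obtain ⟨h2, h3⟩ := List.append_inj' h1 (by rw [length_bitsL, length_bitsL])
  have h4 := bitsL_inj (by have := i.isLt; omega) (by have := i'.isLt; omega) h3
  have h5 := List.ofFn_injective (List.append_cancel_right h2)
  rw [h5, Fin.ext h4]

theorem lastP_inj : Function.Injective (lastP (l := l) hN) := by
  rintro ⟨u, v⟩ ⟨u', v'⟩ h
  have h1 := idx_inj' (Fin.mk.inj h)
  dsimp only at h1
  have h2 := List.append_cancel_right h1
  obtain ⟨h3, h4⟩ := List.append_inj h2 (by simp)
  rw [List.ofFn_injective h3, List.ofFn_injective h4]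

theorem pos_ne_last (hl : l < 2 ^ n) (p : (Fin n → Bool) × Fin l)
    (q : (Fin n → Bool) × (Fin l → Bool)) : posP hN p ≠ lastP hN q := by
  intro h
  have h1 := idx_inj' (Fin.mk.inj h)
  obtain ⟨-, h3⟩ := List.append_inj' h1 (by rw [length_bitsL, length_bitsL])
  have h4 := bitsL_inj (by have := p.2.isLt; omega) hl h3
  have := p.2.isLt
  omega

theorem orc_pos (a : Fin N → Bool) (u : Fin n → Bool) (i : Fin l) :
    orc N a (List.ofFn u ++ List.replicate l false ++ bitsL n i) = a (posP hN (u, i)) := by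
  unfold orc
  exact dif_pos (posP hN (u, i)).isLt

theorem ptrV_eq (a : Fin N → Bool) (u : Fin n → Bool) :
    List.ofFn (ptrV (posP (l := l) hN) a u) = ptrL (orc N a) (List.ofFn u) l := by
  unfold ptrL ptrV
  rw [List.length_ofFn]
  refine List.ext_getElem (by simp) fun i h1 h2 => ?_
  rw [List.length_ofFn] at h1
  simp only [List.getElem_ofFn, List.getElem_map, List.getElem_range]
  exact (orc_pos hN a u ⟨i, h1⟩).symm

theorem orc_last (a : Fin N → Bool) (u : Fin n → Bool) :
    orc N a (List.ofFn u ++ ptrL (orc N a) (List.ofFn u) l ++ bitsL n l) =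
      a (lastP hN (u, ptrV (posP (l := l) hN) a u)) := by
  rw [← ptrV_eq hN]
  unfold orc
  exact dif_pos (lastP hN (u, ptrV (posP (l := l) hN) a u)).isLt

/-- the algorithm with advice `w` is right for all inputs -/
def EvOne (n l N : ℕ) (M : NAlg) (w : List Bool) (s q : ℕ) (a : Fin N → Bool) : Prop :=
  ∀ u : Fin n → Bool, (AccT M s q (orc N a) (pairBits w (List.ofFn u)) ↔
    orc N a (List.ofFn u ++ ptrL (orc N a) (List.ofFn u) l ++ bitsL n l) = true)

/-- the algorithm is right for some advice -/
def EvAll (n l N : ℕ) (M : NAlg) (s q : ℕ) (a : Fin N → Bool) : Prop :=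
  ∃ w : List Bool, w.length ≤ 2 ^ n / 8 ∧ EvOne n l N M w s q a

include hN in
open Classical in
/-- One algorithm with one advice string. -/
theorem event_one (M : NAlg) (w : List Bool) {s : ℕ} (q : ℕ) (hl : l < 2 ^ n)
    (hs : n + s + 2 ≤ l) :
    Ex unif (fun a : Fin N → Bool => if EvOne n l N M w s q a then (1 : ℝ) else 0) ≤
      (3 / 4) ^ (2 ^ n) := by
  set Q : Finset (Fin N) := univ.filter fun p => ∃ (u : Fin n → Bool) (σ : List Bool),
    σ.length ≤ s ∧ M.act (pairBits (pairBits w (List.ofFn u)) σ) = false :: str p with hQdef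
  have hQcard : Q.card ≤ 2 ^ n * 2 ^ (s + 1) := by
    have hex : ∀ p : Fin N, ∃ c : (Fin n → Bool) × ℕ, p ∈ Q →
        c.2 < 2 ^ (s + 1) ∧
        M.act (pairBits (pairBits w (List.ofFn c.1)) (str c.2)) = false :: str p := by
      intro p
      by_cases hp : p ∈ Q
      · obtain ⟨u, σ, h1, h2⟩ := (mem_filter.1 hp).2
        refine ⟨(u, idx σ), fun _ => ⟨?_, ?_⟩⟩
        · have h3 := idx_lt σ
          have h4 : 2 ^ (σ.length + 1) ≤ 2 ^ (s + 1) :=
            Nat.pow_le_pow_right (by norm_num) (by omega)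
          dsimp only
          omega
        · dsimp only
          rw [str_idx]
          exact h2
      · exact ⟨(fun _ => false, 0), fun h => absurd h hp⟩
    choose c hc using hex
    have h1 : Q.card ≤ ((univ : Finset (Fin n → Bool)) ×ˢ range (2 ^ (s + 1))).card := by
      refine card_le_card_of_injOn c ?_ ?_
      · intro p hp
        rw [mem_coe, mem_product, mem_range]
        exact ⟨mem_univ _, (hc p hp).1⟩
      · intro p hp p' hp' h
        have h2 := (hc p hp).2
        rw [h, (hc p' hp').2] at h2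
        have h3 := List.tail_eq_of_cons_eq h2
        exact Fin.ext (str_injective h3).symm
    refine h1.trans (le_of_eq ?_)
    rw [card_product, card_univ, card_range]
    simp
  have h2 : 2 * Q.card ≤ 2 ^ l := by
    calc 2 * Q.card ≤ 2 * (2 ^ n * 2 ^ (s + 1)) := Nat.mul_le_mul_left _ hQcard
      _ = 2 ^ (n + s + 2) := by ring
      _ ≤ 2 ^ l := Nat.pow_le_pow_right (by norm_num) hs
  have h3 := oblivious_bound (posP (l := l) hN) (lastP (l := l) hN) (posP_inj hN hl)
    (lastP_inj hN) (fun p q => pos_ne_last hN hl p q) Q h2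
    (fun u a => decide (AccT M s q (orc N a) (pairBits w (List.ofFn u)))) ?_
  · rw [← card_of_Ex]
    have h4 : (univ.filter fun a : Fin N → Bool => EvOne n l N M w s q a) =
        univ.filter fun a : Fin N → Bool => ∀ u : Fin n → Bool,
          decide (AccT M s q (orc N a) (pairBits w (List.ofFn u))) =
          a (lastP hN (u, ptrV (posP (l := l) hN) a u)) := by
      ext a
      rw [mem_filter, mem_filter]
      refine and_congr_right fun _ => forall_congr' fun u => ?_
      rw [orc_last hN]
      constructor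
      · intro h
        rw [Bool.eq_iff_iff, decide_eq_true_eq]
        exact h
      · intro h
        rw [Bool.eq_iff_iff, decide_eq_true_eq] at h
        exact h
    rw [h4]
    generalize (univ.filter fun a : Fin N → Bool => ∀ u : Fin n → Bool,
          decide (AccT M s q (orc N a) (pairBits w (List.ofFn u))) =
          a (lastP hN (u, ptrV (posP (l := l) hN) a u))).card = X at h3 ⊢
    simp only [Fintype.card_fun, Fintype.card_bool, Fintype.card_fin] at h3
    have h5 : (X : ℝ) * 4 ^ (2 ^ n) ≤ 3 ^ (2 ^ n) * 2 ^ N := by exact_mod_cast h3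
    rw [Real.rpow_neg (by norm_num), Real.rpow_natCast, div_pow, ← div_eq_mul_inv,
      div_le_div_iff₀ (by positivity) (by positivity)]
    exact h5
  · intro u a a' h
    have h6 : AccT M s q (orc N a') (pairBits w (List.ofFn u)) ↔
        AccT M s q (orc N a) (pairBits w (List.ofFn u)) := by
      refine accT_congr fun σ y h7 h8 => orc_congr fun p hp => h p ?_
      rw [hQdef, mem_filter]
      exact ⟨mem_univ _, u, σ, h7, hp ▸ h8⟩
    exact decide_eq_decide.2 h6

include hN in
open Classical in
/-- One algorithm with all advice strings of length at most `2 ^ n / 8`. -/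
theorem event_all (M : NAlg) {s : ℕ} (q : ℕ) (hl : l < 2 ^ n) (hs : n + s + 2 ≤ l) (hn : 6 ≤ n) :
    Ex unif (fun a : Fin N → Bool => if EvAll n l N M s q a then (1 : ℝ) else 0) ≤
      (3 / 4) ^ (3 * 2 ^ (n / 3)) := by
  have hu : ∀ b, 0 ≤ unif b := fun b => by unfold unif; norm_num
  have h1 : ∀ a : Fin N → Bool, (if EvAll n l N M s q a then (1 : ℝ) else 0) ≤
      ∑ j ∈ range (2 ^ (2 ^ n / 8 + 1)), if EvOne n l N M (str j) s q a then (1 : ℝ) else 0 := by
    intro a
    by_cases h : EvAll n l N M s q a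
    · rw [if_pos h]
      obtain ⟨w, hw, h2⟩ := h
      have h3 : idx w ∈ range (2 ^ (2 ^ n / 8 + 1)) := by
        rw [mem_range]
        have h4 := idx_lt w
        have h5 : 2 ^ (w.length + 1) ≤ 2 ^ (2 ^ n / 8 + 1) :=
          Nat.pow_le_pow_right (by norm_num) (by omega)
        omega
      refine le_trans ?_ (single_le_sum
        (f := fun j => if EvOne n l N M (str j) s q a then (1 : ℝ) else 0)
        (fun j _ => by split_ifs <;> norm_num) h3)
      rw [str_idx, if_pos h2]
    · rw [if_neg h]
      exact sum_nonneg fun j _ => by split_ifs <;> norm_num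
  refine (Ex_mono hu h1).trans ?_
  rw [Ex_sum]
  refine (sum_le_sum fun j _ => event_one hN M (str j) q hl hs).trans ?_
  rw [sum_const, card_range, nsmul_eq_mul]
  push_cast
  -- the numbers
  obtain ⟨t, ht⟩ : ∃ t, 2 ^ n = 8 * t := by
    refine ⟨2 ^ (n - 3), ?_⟩
    rw [show (8 : ℕ) = 2 ^ 3 by norm_num, ← pow_add]
    congr 1
    omega
  have ht8 : 2 ^ n / 8 = t := by omega
  rw [ht8]
  have e1 : (2 : ℝ) ^ (t + 1) ≤ (4 / 3) ^ (3 * (t + 1)) := by
    rw [pow_mul]
    exact pow_le_pow_left₀ (by norm_num) (by norm_num) _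
  have e2 : 3 * 2 ^ (n / 3) + 3 * (t + 1) ≤ 2 ^ n := by
    have h6 : 2 ^ (n / 3) * 2 ^ 4 ≤ 2 ^ n := by
      rw [← pow_add]
      exact Nat.pow_le_pow_right (by norm_num) (by omega)
    have h7 : 2 ^ 6 ≤ 2 ^ n := Nat.pow_le_pow_right (by norm_num) hn
    omega
  calc (2 : ℝ) ^ (t + 1) * (3 / 4) ^ (2 ^ n)
      ≤ (4 / 3) ^ (3 * (t + 1)) * (3 / 4) ^ (3 * 2 ^ (n / 3) + 3 * (t + 1)) := by
        refine mul_le_mul e1 ?_ (by positivity) (by positivity)
        exact pow_le_pow_of_le_one (by norm_num) (by norm_num) e2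
    _ = (3 / 4) ^ (3 * 2 ^ (n / 3)) * ((4 / 3) ^ (3 * (t + 1)) * (3 / 4) ^ (3 * (t + 1))) := by
        rw [pow_add]
        ring
    _ = (3 / 4) ^ (3 * 2 ^ (n / 3)) := by
        rw [← mul_pow]
        norm_num

end

end Pool.Agent.TH707.OB
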