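import Pool.Agent.H620R2.Gauge.Defs
import Mathlib.Order.Filter.AtTopBot.Basic

/-!
# Space-bounded algorithms with an oracle, in a very general sense
-/

set_option autoImplicit false

namespace Pool.Agent.TH707.OB

open Pool.Agent.NPC Pool.Agent.H620R2.Gauge Filter

/-- A nondeterministic oracle algorithm working on a memory. On input `x` and with memory content
`s`, `act ⟨x, s⟩` tells what comes next: `true :: z` means that the algorithm stops with output `z`;
`false :: q` means that it asks whether `q` is in the oracle, and then the new content of the memory
is `next ⟨x, g :: b :: s⟩`, where `b` is the answer and `g` is a guessed bit. These functions are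
arbitrary, they need not be computable. -/
structure NAlg : Type where
  /-- the next action -/
  act : List Bool → List Bool
  /-- the next content of the memory -/
  next : List Bool → List Bool

/-- The contents of the memory that can occur with oracle `A` on input `x`. -/
inductive NAlg.Reach (M : NAlg) (A : Oracle) (x : List Bool) : List Bool → Prop
  | start : NAlg.Reach M A x []
  | step {s q : List Bool} (g : Bool) : NAlg.Reach M A x s → M.act (pairBits x s) = false :: q →
      NAlg.Reach M A x (M.next (pairBits x (g :: A q :: s)))

/-- Some run of the algorithm with oracle `A` on input `x` stops with output `[true]`. -/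
def NAlg.Accepts (M : NAlg) (A : Oracle) (x : List Bool) : Prop :=
  ∃ s, M.Reach A x s ∧ M.act (pairBits x s) = [true, true]

/-- The language `L` is decided relative to `A`, for all sufficiently long inputs, by a
nondeterministic algorithm whose functions `act` and `next` belong to the set `G`, on inputs of
length `n` with a memory of at most `s n` bits, with questions of polynomial length, and with an
advice string `h n` of length at most `a n` as additional input. There is no bound on the number of
rounds. -/
def InSpace (G : Set (List Bool → List Bool)) (s a : ℕ → ℕ) (A : Oracle)
    (L : Set (List Bool)) : Prop :=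
  ∃ (M : NAlg) (h : ℕ → List Bool) (p : Polynomial ℕ), M.act ∈ G ∧ M.next ∈ G ∧
    ∀ᶠ n : ℕ in atTop, (h n).length ≤ a n ∧ ∀ x : List Bool, x.length = n →
      (∀ σ, M.Reach A (pairBits (h n) x) σ → σ.length ≤ s n ∧
        ∀ q, M.act (pairBits (pairBits (h n) x) σ) = false :: q → q.length ≤ p.eval n) ∧
      (x ∈ L ↔ M.Accepts A (pairBits (h n) x))

/-- `L` is read off from the oracle `A` by one question, which consists of constants and of the
input: `x` is in `L` if and only if the string `1 ^ e 0 1 ^ q(|x|) 0 x` is in `A`, for some number
`e` and some polynomial `q`. -/
def OneQuestion (A : Oracle) (L : Set (List Bool)) : Prop :=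
  ∃ (e : ℕ) (q : Polynomial ℕ), ∀ x : List Bool, x ∈ L ↔
    A (List.replicate e true ++ false :: (List.replicate (q.eval x.length) true ++ false :: x)) =
      true

/-- Polylogarithmic space relative to `A`: the language `L` is decided, for all sufficiently long
inputs, by a (deterministic) algorithm which works on a memory of at most `(log n) ^ c` bits for some
`c`; between the questions it may use any polynomial-time computation. There is no bound on the
number of rounds. -/
def PolylogSpace (A : Oracle) (L : Set (List Bool)) : Prop :=
  ∃ (M : SAlg) (c : ℕ), ∀ᶠ n : ℕ in atTop, ∀ x : List Bool, x.length = n →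
    (∀ s, M.Reach A x s → s.length ≤ (Nat.log 2 n) ^ c) ∧
    ∃ s z, M.Reach A x s ∧ M.act (pairBits x s) = true :: z ∧ (x ∈ L ↔ z = [true])

/-- A space-bounded class: a class `C` of languages relative to oracles which contains, relative to
every oracle `A`, all languages that are read off from `A` by one question, and which is contained
in nondeterministic space `n ^ b` with advice of length at most `2 ^ n / 8`, for some `b`, where the
algorithms are built from the functions in some countable set. -/
def SpaceClass (C : Oracle → Set (List Bool) → Prop) : Prop :=
  (∀ A L, OneQuestion A L → C A L) ∧
  ∃ (G : Set (List Bool → List Bool)) (b : ℕ), G.Countable ∧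
    ∀ A L, C A L → InSpace G (fun n => n ^ b) (fun n => 2 ^ n / 8) A L

end Pool.Agent.TH707.OB
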