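import Pool.Agent.TH707.OB.Event
import Pool.Agent.TH707.DP.NC1

/-!
# The oracles relative to which `P` has space-bounded algorithms are a null set
-/

set_option autoImplicit false

namespace Pool.Agent.TH707.OB

open Pool.Agent.NPC Pool.Agent.H620R2.Gauge Pool.Agent.TH707.DP Finset Filter MeasureTheory
open Pool.Agent.TH707.EC Pool.Agent.H622R2.Ckt
open H568R2
open Pool.Agent.W900.CH (Close ae_far_P close_of_code)
open Pool.Agent.H628R3.RO (randomOracle)

/-- the algorithm is right for all inputs of length `n`, with some advice -/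
def bad (M : NAlg) (p : Polynomial ℕ) (b n : ℕ) : Set Oracle :=
  {A | ∃ w : List Bool, w.length ≤ 2 ^ n / 8 ∧ ∀ x : List Bool, x.length = n →
    (∀ σ, M.Reach A (pairBits w x) σ → σ.length ≤ n ^ b ∧
      ∀ q, M.act (pairBits (pairBits w x) σ) = false :: q → q.length ≤ p.eval n) ∧
    (x ∈ LQ (b + 2) A ↔ M.Accepts A (pairBits w x))}

theorem orc_ptr {n l N K : ℕ} (hN : 2 ^ (n ^ K) ≤ N) (hK : n + l + n < n ^ K) (A : Oracle)
    {u : List Bool} (hu : u.length = n) :
    orc N (pre N A) (u ++ ptrL (orc N (pre N A)) u l ++ bitsL n l) =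
      A (u ++ ptrL A u l ++ bitsL n l) := by
  have h1 : ptrL (orc N (pre N A)) u l = ptrL A u l := by
    unfold ptrL
    refine List.map_congr_left fun i _ => ?_
    refine orc_pre_of_lt hN A ?_
    rw [List.length_append, List.length_append, List.length_replicate, length_bitsL, hu]
    exact hK
  rw [h1]
  refine orc_pre_of_lt hN A ?_
  rw [List.length_append, List.length_append, length_ptrL, length_bitsL, hu]
  exact hK

theorem null_bad (M : NAlg) (p : Polynomial ℕ) (b : ℕ) {f : ℕ → ℝ} (hf : CondD f) :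
    Null f {A | ∀ᶠ n : ℕ in atTop, A ∈ bad M p b n} := by
  obtain ⟨k, hk⟩ := poly_le_pow (p + Polynomial.X ^ (b + 2) + Polynomial.C 2 * Polynomial.X +
    Polynomial.C 1)
  refine null_gen (bad := bad M p b) (K := k + 1) (by omega) (s := fun _ => 0)
    (Eventually.of_forall fun n => Nat.zero_le _) ?_ hf
  filter_upwards [poly_le_two_pow (Polynomial.X ^ (b + 2) + Polynomial.C 1),
    eventually_ge_atTop 6] with n hn1 hn6 N hN
  simp only [Polynomial.eval_add, Polynomial.eval_pow, Polynomial.eval_X, Polynomial.eval_C] at hn1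
  have h2 := hk n (by omega)
  simp only [Polynomial.eval_add, Polynomial.eval_pow, Polynomial.eval_X, Polynomial.eval_C,
    Polynomial.eval_mul] at h2
  have h3 : n ^ k ≤ n ^ (k + 1) := Nat.pow_le_pow_right (by omega) (by omega)
  set l := n ^ (b + 2) with hl
  have hK : n + l + n < n ^ (k + 1) := by omega
  have hp : p.eval n < n ^ (k + 1) := by omega
  have hs : n + n ^ b + 2 ≤ l := by
    have h4 : l = n * n * n ^ b := by rw [hl, pow_add]; ring
    have h5 : 1 ≤ n ^ b := Nat.one_le_pow _ _ (by omega)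
    have h6 : 6 * n ≤ n * n := Nat.mul_le_mul_right _ hn6
    rw [h4]
    nlinarith
  refine ⟨EvAll n l N M (n ^ b) (p.eval n), ?_, ?_⟩
  · rintro A ⟨w, hw, h⟩
    refine ⟨w, hw, fun u => ?_⟩
    have hu : (List.ofFn u).length = n := List.length_ofFn
    obtain ⟨h4, h5⟩ := h _ hu
    rw [accT_iff h4 fun y hy => orc_pre_of_lt hN A (by omega), ← h5, orc_ptr hN hK A hu]
    unfold LQ
    rw [Set.mem_ofPred_eq, hu]
  · refine (event_all (N := N) ?_ M (p.eval n) (by omega) hs hn6).trans ?_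
    · refine le_trans (Nat.pow_le_pow_right (by norm_num) ?_) hN
      omega
    · have h6 : (1 : ℝ) ≤ nC n 0 := by
        have : 1 ≤ nC n 0 := by
          unfold nC
          exact Nat.one_le_pow _ _ (by omega)
        exact_mod_cast this
      exact le_mul_of_one_le_left (by positivity) h6

theorem bad_of_space {G : Set (List Bool → List Bool)} {A : Oracle} {b : ℕ}
    (h : InSpace G (fun n => n ^ b) (fun n => 2 ^ n / 8) A (LQ (b + 2) A)) :
    ∃ (M : NAlg) (p : Polynomial ℕ), M.act ∈ G ∧ M.next ∈ G ∧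
      ∀ᶠ n : ℕ in atTop, A ∈ bad M p b n := by
  obtain ⟨M, w, p, h1, h2, h3⟩ := h
  refine ⟨M, p, h1, h2, ?_⟩
  filter_upwards [h3] with n hn
  exact ⟨w n, hn⟩

/-- In some fixed polynomial space. -/
def FixedSpace (G : Set (List Bool → List Bool)) (A : Oracle) : Prop :=
  ∃ b : ℕ, ∀ L, IsP A L → InSpace G (fun n => n ^ b) (fun n => 2 ^ n / 8) A L

theorem null_fixedSpace {G : Set (List Bool → List Bool)} (hG : G.Countable) {f : ℕ → ℝ}
    (hf : CondD f) : Null f {A | FixedSpace G A} := by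
  have h1 : Countable G := hG.to_subtype
  have h2 := Pool.Agent.H620R2.Gauge.CC.poly_countable
  refine (null_iUnion (f := f) (Θ := ℕ × (G × G) × Polynomial ℕ)
    (fun θ => {A | ∀ᶠ n : ℕ in atTop, A ∈ bad ⟨θ.2.1.1.1, θ.2.1.2.1⟩ θ.2.2 θ.1 n})
    fun θ => null_bad _ _ _ hf).mono ?_
  rintro A ⟨b, h⟩
  obtain ⟨M, p, h3, h4, h5⟩ := bad_of_space (h _ (LQ_isP (b + 2) A))
  exact Set.mem_iUnion.2 ⟨(b, (⟨M.act, h3⟩, ⟨M.next, h4⟩), p), h5⟩

/-! ### the easy side -/

theorem oneQuestion_of_code {A : Oracle} {L : Set (List Bool)} {R : ℕ → Polynomial ℕ} {e : ℕ}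
    (h : ∀ x, x ∈ L ↔ A (code R e x) = true) : OneQuestion A L :=
  ⟨e, R e, fun x => h x⟩

/-- The threshold on the scale of gauges. -/
theorem gaugeB (f : ℕ → ℝ) (S : Set Oracle)
    (h1 : ∀ A : Oracle, (∀ L, IsPSPACE A L → OneQuestion A L) → A ∈ S)
    {G : Set (List Bool → List Bool)} (hG : G.Countable) (h2 : ∀ A ∈ S, FixedSpace G A) :
    Null f S ↔ ∀ ε : ℝ, 0 < ε → ∃ᶠ N : ℕ in atTop, f N ≤ 2 ^ ((Real.logb 2 N) ^ ε) := by
  classical
  constructor
  · intro hn
    by_contra hc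
    push Not at hc
    obtain ⟨ε, hε, hf⟩ := hc
    obtain ⟨K, hK⟩ := exists_K hε
    obtain ⟨R, Φ, hR, hoff, hred⟩ := exists_coding' K
    refine SL.not_null_of_sparse f {y | ∃ e x, y = code R e x}
      {A | ∀ L, IsPSPACE A L → OneQuestion A L} ?_ ?_ (hn.mono fun A hA => h1 A hA)
    · have hsp := sparse R hR hε hK
      filter_upwards [hsp, hf] with N h3 h4
      refine le_trans ?_ (h3.trans h4.le)
      refine le_of_eq ?_
      congr 1
    · intro B
      refine ⟨Φ B, fun L hL => ?_, fun y hy => hoff B y fun e x h => hy ⟨e, x, h⟩⟩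
      obtain ⟨e, he⟩ := hred B L hL
      exact oneQuestion_of_code he
  · intro hf
    exact (null_fixedSpace hG hf).mono h2

/-- The threshold for the number of changed strings. -/
theorem changedB (g : ℕ → ℝ) {G : Set (List Bool → List Bool)} (hG : G.Countable) :
    ((∀ ε : ℝ, 0 < ε → ∃ᶠ n : ℕ in atTop, g n ≤ 2 ^ ((n : ℝ) ^ ε)) →
      ∀ᵐ O ∂randomOracle, ∀ A : Oracle, Close g O A → ¬ FixedSpace G A) ∧
    ((¬ ∀ ε : ℝ, 0 < ε → ∃ᶠ n : ℕ in atTop, g n ≤ 2 ^ ((n : ℝ) ^ ε)) →
      ∀ O : Oracle, ∃ A : Oracle, Close g O A ∧ ∀ L, IsPSPACE A L → OneQuestion A L) := by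
  refine ⟨fun hg => ?_, fun hg O => ?_⟩
  · exact ae_far_P (S := {A | FixedSpace G A}) (fun f hf => null_fixedSpace hG hf) hg
  · push Not at hg
    obtain ⟨ε, hε, hg⟩ := hg
    obtain ⟨K, hK⟩ := exists_K (half_pos hε)
    obtain ⟨R, Φ, hR, hoff, hred⟩ := exists_coding' K
    refine ⟨Φ O, close_of_code hε hg hK hR fun y hy => hoff O y hy, fun L hL => ?_⟩
    obtain ⟨e, he⟩ := hred O L hL
    exact oneQuestion_of_code he

end Pool.Agent.TH707.OB
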